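import Pool.Agent.H95.AD.TargetsU

/-!
# The Fourier expansion of the central value
-/

set_option autoImplicit false

open MeasureTheory Set Filter
open scoped Real

namespace Pool.Agent.H42.AD

open Pool.Agent.H31.CN Pool.Agent.H95.AD

/-- grouping a double sum by the product -/
lemma group_sum (G : ℕ → ℝ) {S : ℝ}
    (h : HasSum (fun x : ℕ × ℕ => G ((x.1 + 1) * (x.2 + 1))) S) :
    HasSum (fun n : ℕ => tau n * G n) S := by
  -- to the pairs of positive numbers
  have h1 : HasSum (fun y : ℕ+ × ℕ+ => G ((y.1 : ℕ) * (y.2 : ℕ))) S := by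
    have h0 := (Equiv.prodCongr Equiv.pnatEquivNat Equiv.pnatEquivNat).hasSum_iff.mpr h
    have he : (fun x : ℕ × ℕ => G ((x.1 + 1) * (x.2 + 1))) ∘
        (Equiv.prodCongr Equiv.pnatEquivNat Equiv.pnatEquivNat) =
        fun y : ℕ+ × ℕ+ => G ((y.1 : ℕ) * (y.2 : ℕ)) := by
      funext y
      have e1 : PNat.natPred y.1 + 1 = (y.1 : ℕ) := PNat.natPred_add_one y.1
      have e2 : PNat.natPred y.2 + 1 = (y.2 : ℕ) := PNat.natPred_add_one y.2
      have : ((Equiv.prodCongr Equiv.pnatEquivNat Equiv.pnatEquivNat) y) =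
        (PNat.natPred y.1, PNat.natPred y.2) := rfl
      simp only [Function.comp, this, e1, e2]
    rwa [he] at h0
  -- to the divisors
  have h2 : HasSum (fun z : (n : ℕ+) × Nat.divisorsAntidiagonal n => G (z.1 : ℕ)) S := by
    have h0 := sigmaAntidiagonalEquivProd.hasSum_iff.mpr h1
    have he : (fun y : ℕ+ × ℕ+ => G ((y.1 : ℕ) * (y.2 : ℕ))) ∘ sigmaAntidiagonalEquivProd =
        fun z : (n : ℕ+) × Nat.divisorsAntidiagonal n => G (z.1 : ℕ) := by
      funext z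
      have e1 := sigmaAntidiagonalEquivProd_symm_apply_fst (sigmaAntidiagonalEquivProd z)
      rw [Equiv.symm_apply_apply] at e1
      exact congrArg G e1.symm
    rwa [he] at h0
  have h3 : HasSum (fun n : ℕ+ => tau n * G (n : ℕ)) S := by
    refine h2.sigma fun n => ?_
    have hf := hasSum_fintype (fun c : Nat.divisorsAntidiagonal (n : ℕ) => G (n : ℕ))
    have hcard : ∑ c : Nat.divisorsAntidiagonal (n : ℕ), G (n : ℕ) = tau n * G (n : ℕ) := by
      rw [Finset.sum_const, Finset.card_univ, Fintype.card_coe, nsmul_eq_mul]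
      unfold tau
      have : (Nat.divisorsAntidiagonal (n : ℕ)).card = (Nat.divisors (n : ℕ)).card := by
        rw [← Nat.map_div_right_divisors, Finset.card_map]
      rw [this]
    rw [hcard] at hf
    exact hf
  have h4 : (fun n : ℕ+ => tau n * G (n : ℕ)) = (fun n : ℕ => tau n * G n) ∘
      (fun n : ℕ+ => (n : ℕ)) := rfl
  rw [h4] at h3
  refine (PNat.coe_injective.hasSum_iff fun n hn => ?_).mp h3
  have hn0 : n = 0 := by
    by_contra hne
    exact hn ⟨⟨n, Nat.pos_of_ne_zero hne⟩, rfl⟩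
  subst hn0
  simp [tau]

/-- the version with real arguments -/
lemma group_real (g : ℝ → ℝ)
    (h : Summable (fun x : ℕ × ℕ => g (((x.1 : ℝ) + 1) * ((x.2 : ℝ) + 1)))) :
    Summable (fun n : ℕ => tau n * g n) ∧
    ∑' x : ℕ × ℕ, g (((x.1 : ℝ) + 1) * ((x.2 : ℝ) + 1)) = ∑' n : ℕ, tau n * g n := by
  have hcast : ∀ x : ℕ × ℕ, (((x.1 + 1) * (x.2 + 1) : ℕ) : ℝ) =
      ((x.1 : ℝ) + 1) * ((x.2 : ℝ) + 1) := fun x => by push_cast; ring
  have h1 : HasSum (fun x : ℕ × ℕ => (fun n : ℕ => g (n : ℝ)) ((x.1 + 1) * (x.2 + 1)))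
      (∑' x : ℕ × ℕ, g (((x.1 : ℝ) + 1) * ((x.2 : ℝ) + 1))) := by
    have he : (fun x : ℕ × ℕ => (fun n : ℕ => g (n : ℝ)) ((x.1 + 1) * (x.2 + 1))) =
        fun x : ℕ × ℕ => g (((x.1 : ℝ) + 1) * ((x.2 : ℝ) + 1)) := by
      funext x
      exact congrArg g (hcast x)
    rw [he]
    exact h.hasSum
  have h2 := group_sum (fun n : ℕ => g (n : ℝ)) h1
  exact ⟨h2.summable, h2.tsum_eq.symm⟩

theorem pf_FEN (hFEX : T_FEX) : T_FEN := by
  intro A B Δ hA hΔ
  obtain ⟨hsum, hval⟩ := hFEX A B Δ hA hΔ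
  have hk0 : ∀ x : ℝ, 0 ≤ k0 x := fun x => integral_nonneg fun u => (Real.exp_pos _).le
  have hsum2 : Summable (fun x : ℕ × ℕ =>
      Real.cos (π * (((x.1 : ℝ) + 1) * ((x.2 : ℝ) + 1)) * B / A) *
      k0 (π * (((x.1 : ℝ) + 1) * ((x.2 : ℝ) + 1)) * Real.sqrt Δ / A)) := by
    refine Summable.of_norm_bounded hsum fun x => ?_
    rw [norm_mul, Real.norm_eq_abs, Real.norm_eq_abs, abs_of_nonneg (hk0 _)]
    have h1 := Real.abs_cos_le_one (π * (((x.1 : ℝ) + 1) * ((x.2 : ℝ) + 1)) * B / A)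
    exact mul_le_of_le_one_left (hk0 _) h1
  refine ⟨(group_real (fun y : ℝ => k0 (π * y * Real.sqrt Δ / A)) hsum).1, ?_⟩
  have h2 := (group_real (fun y : ℝ => Real.cos (π * y * B / A) *
    k0 (π * y * Real.sqrt Δ / A)) hsum2).2
  rw [hval, h2]
  congr 1
  refine tsum_congr fun n => ?_
  generalize Real.cos (π * (n : ℝ) * B / A) = c
  generalize k0 (π * (n : ℝ) * Real.sqrt Δ / A) = k
  ring

end Pool.Agent.H42.AD
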