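import Pool.Agent.H95.AD.TargetsU

/-!
# The Fourier expansion of the central value, as a double sum
-/

set_option autoImplicit false

open MeasureTheory Set Filter
open scoped Real

namespace Pool.Agent.H42.AD

open Pool.Agent.H31.CN Pool.Agent.H95.AD

/-- the arguments -/
noncomputable def aX (s A : ℝ) (n : ℕ) : ℝ := π * ((n : ℝ) + 1) ^ 2 * s / (2 * A)

lemma aX_pos {s A : ℝ} (hs : 0 < s) (hA : 0 < A) (n : ℕ) : 0 < aX s A n := by
  unfold aX
  have := Real.pi_pos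
  positivity

lemma aX_sqrt {s A : ℝ} (hs : 0 < s) (hA : 0 < A) (m n : ℕ) :
    2 * Real.sqrt (aX s A m * aX s A n) = π * (((m : ℝ) + 1) * ((n : ℝ) + 1)) * s / A := by
  have hpi := Real.pi_pos
  have h : aX s A m * aX s A n = (π * (((m : ℝ) + 1) * ((n : ℝ) + 1)) * s / (2 * A)) ^ 2 := by
    unfold aX
    field_simp
  rw [h, Real.sqrt_sq (by positivity)]
  field_simp

/-- the summability of the values of `K₀` -/
lemma sum_k0 (hK0 : T_K0) {c : ℝ} (hc : 0 < c) :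
    Summable (fun x : ℕ × ℕ => k0 (c * (((x.1 : ℝ) + 1) * ((x.2 : ℝ) + 1)))) := by
  have hg : Summable (fun n : ℕ => Real.exp (-(c / 2)) * Real.exp (-(c / 2) * (n : ℝ))) := by
    apply Summable.mul_left
    have := Real.summable_exp_nat_mul_iff.mpr (show -(c / 2) < 0 by linarith)
    refine this.congr fun n => ?_
    rw [mul_comm]
  have hprod : Summable (fun x : ℕ × ℕ =>
      (Real.exp (-(c / 2)) * Real.exp (-(c / 2) * (x.1 : ℝ))) *
        (Real.exp (-(c / 2)) * Real.exp (-(c / 2) * (x.2 : ℝ)))) :=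
    Summable.mul_of_nonneg hg hg (fun n => by positivity) (fun n => by positivity)
  refine Summable.of_nonneg_of_le (fun x => ?_) (fun x => ?_) (hprod.mul_left (2 / Real.sqrt c))
  · have hx : 0 < c * (((x.1 : ℝ) + 1) * ((x.2 : ℝ) + 1)) := by positivity
    exact (hK0 _ hx).2.1.le
  · have hx : 0 < c * (((x.1 : ℝ) + 1) * ((x.2 : ℝ) + 1)) := by positivity
    have h1 : (0 : ℝ) ≤ (x.1 : ℝ) := Nat.cast_nonneg _
    have h2 : (0 : ℝ) ≤ (x.2 : ℝ) := Nat.cast_nonneg _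
    refine ((hK0 _ hx).2.2.1).trans ?_
    have hle : c ≤ c * (((x.1 : ℝ) + 1) * ((x.2 : ℝ) + 1)) := by
      have : (1 : ℝ) ≤ ((x.1 : ℝ) + 1) * ((x.2 : ℝ) + 1) := by nlinarith
      nlinarith
    have hs : 2 / Real.sqrt (c * (((x.1 : ℝ) + 1) * ((x.2 : ℝ) + 1))) ≤ 2 / Real.sqrt c := by
      have hc' : 0 < Real.sqrt c := Real.sqrt_pos.mpr hc
      exact div_le_div_of_nonneg_left (by norm_num) hc' (Real.sqrt_le_sqrt hle)
    have he : Real.exp (-(c * (((x.1 : ℝ) + 1) * ((x.2 : ℝ) + 1)))) ≤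
        (Real.exp (-(c / 2)) * Real.exp (-(c / 2) * (x.1 : ℝ))) *
        (Real.exp (-(c / 2)) * Real.exp (-(c / 2) * (x.2 : ℝ))) := by
      rw [← Real.exp_add, ← Real.exp_add, ← Real.exp_add]
      apply Real.exp_le_exp.mpr
      have : ((x.1 : ℝ) + 1) * ((x.2 : ℝ) + 1) ≥ 1 + (x.1 : ℝ) / 2 + (x.2 : ℝ) / 2 := by
        nlinarith
      nlinarith
    exact mul_le_mul hs he (Real.exp_pos _).le (by positivity)

/-- the integral over `t` -/
noncomputable def JJ (a b : ℝ) : ℝ := ∫ t in Ioi (1 : ℝ), Real.exp (-(a / t + b * t)) / t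

lemma JJ_nonneg (a b : ℝ) : 0 ≤ JJ a b := by
  unfold JJ
  refine setIntegral_nonneg measurableSet_Ioi fun t ht => ?_
  have : (0 : ℝ) < t := lt_trans one_pos ht
  positivity

theorem pf_FEX (hZTH : T_ZTH) (hCTI : T_CTI) (hTHX : T_THX) (hK0 : T_K0) (hK0M : T_K0M) :
    T_FEX := by
  intro A B Δ hA hΔ
  have hpi := Real.pi_pos
  have hs : 0 < Real.sqrt Δ := Real.sqrt_pos.mpr hΔ
  set s := Real.sqrt Δ with hsdef
  have hc : 0 < π * s / A := by positivity
  have hsum : Summable (fun x : ℕ × ℕ =>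
      k0 (π * (((x.1 : ℝ) + 1) * ((x.2 : ℝ) + 1)) * s / A)) := by
    refine (sum_k0 hK0 hc).congr fun x => ?_
    congr 1
    ring
  refine ⟨hsum, ?_⟩
  obtain ⟨-, hint1, hzf⟩ := hZTH A B Δ hA hΔ
  obtain ⟨hint2, hct⟩ := hCTI A Δ hA hΔ
  -- the terms
  set F : ℕ × ℕ → ℝ → ℝ := fun x t =>
    Real.cos (π * (((x.1 : ℝ) + 1) * ((x.2 : ℝ) + 1)) * B / A) *
      (Real.exp (-(aX s A x.1 / t + aX s A x.2 * t)) / t) with hF
  have hFint : ∀ x, Integrable (F x) (volume.restrict (Ioi 1)) := fun x =>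
    ((hK0M _ _ (aX_pos hs hA x.1) (aX_pos hs hA x.2)).1).const_mul _
  have hJs : ∀ x : ℕ × ℕ, JJ (aX s A x.1) (aX s A x.2) + JJ (aX s A x.2) (aX s A x.1) =
      2 * k0 (π * (((x.1 : ℝ) + 1) * ((x.2 : ℝ) + 1)) * s / A) := fun x => by
    have := (hK0M _ _ (aX_pos hs hA x.1) (aX_pos hs hA x.2)).2
    rw [aX_sqrt hs hA] at this
    exact this
  have hJsum : Summable (fun x : ℕ × ℕ => JJ (aX s A x.1) (aX s A x.2)) := by
    refine Summable.of_nonneg_of_le (fun x => JJ_nonneg _ _) (fun x => ?_) (hsum.mul_left 2)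
    have := hJs x
    have h2 := JJ_nonneg (aX s A x.2) (aX s A x.1)
    linarith
  have hnorm : ∀ x, (∫ t in Ioi (1 : ℝ), ‖F x t‖) ≤ JJ (aX s A x.1) (aX s A x.2) := fun x => by
    unfold JJ
    refine setIntegral_mono_on (hFint x).norm
      (hK0M _ _ (aX_pos hs hA x.1) (aX_pos hs hA x.2)).1 measurableSet_Ioi fun t ht => ?_
    have ht0 : (0 : ℝ) < t := lt_trans one_pos ht
    simp only [hF, norm_mul, Real.norm_eq_abs]
    have h1 := Real.abs_cos_le_one (π * (((x.1 : ℝ) + 1) * ((x.2 : ℝ) + 1)) * B / A)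
    rw [abs_of_nonneg (a := Real.exp (-(aX s A x.1 / t + aX s A x.2 * t)) / t) (by positivity)]
    have h2 : 0 ≤ Real.exp (-(aX s A x.1 / t + aX s A x.2 * t)) / t := by positivity
    nlinarith
  have hFsum : Summable (fun x => ∫ t in Ioi (1 : ℝ), ‖F x t‖) :=
    Summable.of_nonneg_of_le (fun x => integral_nonneg fun t => norm_nonneg _) hnorm hJsum
  have hHS := hasSum_integral_of_summable_integral_norm hFint hFsum
  have hFval : ∀ x, ∫ t in Ioi (1 : ℝ), F x t =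
      Real.cos (π * (((x.1 : ℝ) + 1) * ((x.2 : ℝ) + 1)) * B / A) *
        JJ (aX s A x.1) (aX s A x.2) := fun x => by
    simp only [hF]
    rw [integral_const_mul]
    rfl
  -- the difference of the integrals
  have hdiff : (∫ t in Ioi (1 : ℝ), (Th A B Δ t - 1) * t ^ (-(1 / 2) : ℝ)) -
      (∫ t in Ioi (1 : ℝ), (th1 (2 * t * A / s) +
        Real.sqrt (s / (2 * t * A)) * (th1 (t * s / (2 * A)) - 1) - 1) *
          t ^ (-(1 / 2) : ℝ)) = 4 * Real.sqrt (s / (2 * A)) *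
        ∫ t in Ioi (1 : ℝ), ∑' x, F x t := by
    rw [← integral_sub hint1 hint2, ← integral_const_mul]
    refine setIntegral_congr_fun measurableSet_Ioi fun t ht => ?_
    have ht0 : (0 : ℝ) < t := lt_trans one_pos ht
    obtain ⟨-, hTh⟩ := hTHX A B Δ t hA hΔ ht0
    rw [hTh]
    have hroot : Real.sqrt (s / (2 * t * A)) * t ^ (-(1 / 2) : ℝ) =
        Real.sqrt (s / (2 * A)) / t := by
      have h1 : s / (2 * t * A) = s / (2 * A) / t := by field_simp
      rw [h1, Real.sqrt_div' _ ht0.le, Real.rpow_neg ht0.le, ← Real.sqrt_eq_rpow]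
      have h2 : Real.sqrt t ≠ 0 := (Real.sqrt_pos.mpr ht0).ne'
      rw [div_mul_eq_mul_div, ← div_eq_mul_inv, div_div, Real.mul_self_sqrt ht0.le]
    have hF' : ∑' x, F x t = (∑' x : ℕ × ℕ,
        Real.cos (π * (((x.1 : ℝ) + 1) * ((x.2 : ℝ) + 1)) * B / A) *
          Real.exp (-(π * (((x.1 : ℝ) + 1) ^ 2 * (s / (2 * t * A)) +
            ((x.2 : ℝ) + 1) ^ 2 * (t * s / (2 * A)))))) / t := by
      rw [← tsum_div_const]
      refine tsum_congr fun x => ?_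
      simp only [hF]
      have he : -(aX s A x.1 / t + aX s A x.2 * t) =
          -(π * (((x.1 : ℝ) + 1) ^ 2 * (s / (2 * t * A)) +
            ((x.2 : ℝ) + 1) ^ 2 * (t * s / (2 * A)))) := by
        unfold aX
        field_simp
      rw [he, ← mul_div_assoc]
    rw [hF']
    have hfin : ∀ p q r w S : ℝ, r * w = q / t →
        (p + r * (4 * S) - 1) * w - (p - 1) * w = 4 * q * (S / t) := by
      intro p q r w S h
      have : (p + r * (4 * S) - 1) * w - (p - 1) * w = 4 * (r * w) * S := by ring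
      rw [this, h]
      ring
    exact hfin _ _ _ _ _ hroot
  have hconst : Real.sqrt 2 * Δ ^ (-(1 / 4) : ℝ) * Real.sqrt (s / (2 * A)) =
      1 / Real.sqrt A := by
    have h4 : Δ ^ (-(1 / 4) : ℝ) * Real.sqrt s = 1 := by
      rw [hsdef, Real.sqrt_eq_rpow, Real.sqrt_eq_rpow, ← Real.rpow_mul hΔ.le,
        ← Real.rpow_add hΔ]
      norm_num
    have hA2 : Real.sqrt (2 * A) = Real.sqrt 2 * Real.sqrt A := Real.sqrt_mul (by norm_num) A
    rw [Real.sqrt_div hs.le, hA2]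
    have h2 : Real.sqrt 2 ≠ 0 := by positivity
    have hA' : Real.sqrt A ≠ 0 := (Real.sqrt_pos.mpr hA).ne'
    calc Real.sqrt 2 * Δ ^ (-(1 / 4) : ℝ) * (Real.sqrt s / (Real.sqrt 2 * Real.sqrt A)) =
        (Δ ^ (-(1 / 4) : ℝ) * Real.sqrt s) * (Real.sqrt 2 / Real.sqrt 2) / Real.sqrt A := by
          field_simp
      _ = 1 / Real.sqrt A := by rw [h4, div_self h2, one_mul]
  -- the symmetrisation
  have hcsum : Summable (fun x : ℕ × ℕ =>
      Real.cos (π * (((x.1 : ℝ) + 1) * ((x.2 : ℝ) + 1)) * B / A) *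
        JJ (aX s A x.1) (aX s A x.2)) := by
    refine Summable.of_norm_bounded hJsum fun x => ?_
    rw [norm_mul, Real.norm_eq_abs, Real.norm_eq_abs, abs_of_nonneg (JJ_nonneg _ _)]
    have h1 := Real.abs_cos_le_one (π * (((x.1 : ℝ) + 1) * ((x.2 : ℝ) + 1)) * B / A)
    have h2 := JJ_nonneg (aX s A x.1) (aX s A x.2)
    nlinarith
  have hswap : (fun x : ℕ × ℕ => Real.cos (π * (((x.1 : ℝ) + 1) * ((x.2 : ℝ) + 1)) * B / A) *
        JJ (aX s A x.2) (aX s A x.1)) = (fun x : ℕ × ℕ =>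
      Real.cos (π * (((x.1 : ℝ) + 1) * ((x.2 : ℝ) + 1)) * B / A) *
        JJ (aX s A x.1) (aX s A x.2)) ∘ (Equiv.prodComm ℕ ℕ) := by
    funext x
    simp only [Function.comp, Equiv.prodComm_apply, Prod.fst_swap, Prod.snd_swap]
    rw [mul_comm ((x.1 : ℝ) + 1)]
  have hcsum' : Summable (fun x : ℕ × ℕ =>
      Real.cos (π * (((x.1 : ℝ) + 1) * ((x.2 : ℝ) + 1)) * B / A) *
        JJ (aX s A x.2) (aX s A x.1)) := by
    rw [hswap]
    exact hcsum.comp_injective (Equiv.prodComm ℕ ℕ).injective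
  have hts : ∑' x : ℕ × ℕ, Real.cos (π * (((x.1 : ℝ) + 1) * ((x.2 : ℝ) + 1)) * B / A) *
        JJ (aX s A x.2) (aX s A x.1) =
      ∑' x : ℕ × ℕ, Real.cos (π * (((x.1 : ℝ) + 1) * ((x.2 : ℝ) + 1)) * B / A) *
        JJ (aX s A x.1) (aX s A x.2) := by
    rw [hswap]
    exact (Equiv.prodComm ℕ ℕ).tsum_eq (fun x : ℕ × ℕ =>
      Real.cos (π * (((x.1 : ℝ) + 1) * ((x.2 : ℝ) + 1)) * B / A) *
        JJ (aX s A x.1) (aX s A x.2))
  have hfinal : ∑' x : ℕ × ℕ, Real.cos (π * (((x.1 : ℝ) + 1) * ((x.2 : ℝ) + 1)) * B / A) *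
        JJ (aX s A x.1) (aX s A x.2) =
      ∑' x : ℕ × ℕ, Real.cos (π * (((x.1 : ℝ) + 1) * ((x.2 : ℝ) + 1)) * B / A) *
        k0 (π * (((x.1 : ℝ) + 1) * ((x.2 : ℝ) + 1)) * s / A) := by
    have hadd := hcsum.tsum_add hcsum'
    rw [hts] at hadd
    have h2 : ∑' x : ℕ × ℕ, (Real.cos (π * (((x.1 : ℝ) + 1) * ((x.2 : ℝ) + 1)) * B / A) *
        JJ (aX s A x.1) (aX s A x.2) +
        Real.cos (π * (((x.1 : ℝ) + 1) * ((x.2 : ℝ) + 1)) * B / A) *
        JJ (aX s A x.2) (aX s A x.1)) =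
        2 * ∑' x : ℕ × ℕ, Real.cos (π * (((x.1 : ℝ) + 1) * ((x.2 : ℝ) + 1)) * B / A) *
        k0 (π * (((x.1 : ℝ) + 1) * ((x.2 : ℝ) + 1)) * s / A) := by
      rw [← tsum_mul_left]
      refine tsum_congr fun x => ?_
      rw [← mul_add, hJs x]
      ring
    linarith
  have hI : ∫ t in Ioi (1 : ℝ), ∑' x, F x t =
      ∑' x : ℕ × ℕ, Real.cos (π * (((x.1 : ℝ) + 1) * ((x.2 : ℝ) + 1)) * B / A) *
        k0 (π * (((x.1 : ℝ) + 1) * ((x.2 : ℝ) + 1)) * s / A) := by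
    rw [← hHS.tsum_eq, ← hfinal]
    exact tsum_congr hFval
  rw [hzf, ← hct, ← mul_sub, sub_sub_sub_cancel_right, hdiff, hI]
  have hgen : ∀ p q r T : ℝ, p * q = 1 / r → p * (4 * q * T) = 4 / r * T := by
    intro p q r T h
    have : p * (4 * q * T) = 4 * (p * q) * T := by ring
    rw [this, h]
    ring
  exact hgen _ _ _ _ hconst

end Pool.Agent.H42.AD
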